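import Mathlib
import Pool.Agent.PolNA.Defs
import Pool.Agent.PolNA.Model2
import Pool.Agent.PolNA.Main

/-!
# The group of finite-state automorphisms of polynomial activity is not amenable

For every `k ≥ 2` the group `Pol k` of finite-state automorphisms of the rooted `k`-ary tree whose
activity grows polynomially has no left-invariant finitely additive probability measure.
-/

set_option autoImplicit false

namespace Pool.Agent.Results.MP_622d34_al.NotAmenable

/-- There is a left-invariant finitely additive probability measure on all subsets. -/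
def IsAmenable (G : Type) [Group G] : Prop :=
  ∃ m : Set G → ℝ, (∀ A, 0 ≤ m A) ∧ m Set.univ = 1 ∧
    (∀ A B, Disjoint A B → m (A ∪ B) = m A + m B) ∧
    ∀ (g : G) (A : Set G), m ((fun x => g * x) '' A) = m A

theorem result (k : ℕ) (hk : 2 ≤ k) : ¬ IsAmenable (Pool.Agent.PolNA.Pol k) := by
  obtain ⟨A, _, _, _, w, H⟩ := Pool.Agent.PolNA.model k hk
  obtain ⟨a, ha⟩ := pow_unbounded_of_one_lt
    (4 * Pool.Agent.PolNA.TS.Lam (Fintype.card Pool.Agent.PolNA.YY) (w 0) (w 1))
    (one_lt_two (α := ℝ))
  obtain ⟨S, rfl, h0, h1, h2⟩ := H (3 + 9 * a)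
  exact S.not_amen ha (by omega) _ h1 _ h2

end Pool.Agent.Results.MP_622d34_al.NotAmenable
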